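import Pool.Agent.Y686.KC.Tor

/-!
# KZ8: principal centres, over any ground field of characteristic zero

Copied from `Pool.Agent.Y686.KC.Alg` and `Pool.Agent.Y686.KC.Deep` (helper686), with an arbitrary
ground field `F` instead of the complex numbers.
-/

set_option autoImplicit false

namespace Pool.Agent.Y179.KZ

open FF MvPolynomial Pool.Agent.W602.GT
open Pool.Agent.Y686.KC (princ)

section mvpoly

variable {n : ℕ} {F : Type} [Field F]

/-- the index `k` as the last variable -/
noncomputable def eqv (k : Fin n) :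
    MvPolynomial (Fin n) F ≃ₐ[F] Polynomial (MvPolynomial {i : Fin n // i ≠ k} F) :=
  (renameEquiv F (Equiv.optionSubtypeNe k).symm).trans (optionEquivLeft F {i : Fin n // i ≠ k})

theorem pderiv_eqv_symm_C (k : Fin n) (b : MvPolynomial {i : Fin n // i ≠ k} F) :
    pderiv k ((eqv k).symm (Polynomial.C b)) = 0 := by
  have h1 : (eqv k).symm (Polynomial.C b) = rename Subtype.val b := by
    rw [AlgEquiv.symm_apply_eq]
    unfold eqv
    rw [AlgEquiv.trans_apply, renameEquiv_apply, rename_rename]
    have h2 : (Equiv.optionSubtypeNe k).symm ∘ (Subtype.val : {i : Fin n // i ≠ k} → Fin n)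
        = some := by
      funext i
      simp [i.2]
    rw [h2]
    induction b using MvPolynomial.induction_on with
    | C a => simp
    | add p q hp hq => rw [Polynomial.C_add, map_add, map_add, hp, hq]
    | mul_X p i hp => rw [Polynomial.C_mul, map_mul, map_mul, hp, rename_X, optionEquivLeft_X_some]
  rw [h1]
  apply pderiv_eq_zero_of_notMem_vars
  intro hmem
  have := vars_rename (Subtype.val : {i : Fin n // i ≠ k} → Fin n) b hmem
  obtain ⟨i, -, hi⟩ := Finset.mem_image.1 this
  exact i.2 hi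

/-- a prime ideal without nonzero polynomials which are constant in `X k` is principal -/
theorem princ_mv (k : Fin n) (I : Ideal (MvPolynomial (Fin n) F)) (hI : I.IsPrime)
    (h0 : ∀ c ∈ I, pderiv k c = 0 → c = 0) (hb : I ≠ ⊥) :
    ∃ p ∈ I, Prime p ∧ ∀ h ∈ I, p ∣ h := by
  let φ := eqv (F := F) k
  let J : Ideal (Polynomial (MvPolynomial {i : Fin n // i ≠ k} F)) :=
    I.comap (φ.symm : _ →+* MvPolynomial (Fin n) F)
  have hJ : J.IsPrime := Ideal.comap_isPrime _ _
  have hmem : ∀ a, a ∈ J ↔ φ.symm a ∈ I := fun a => Iff.rfl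
  have h1 : ∀ b, Polynomial.C b ∈ J → b = 0 := by
    intro b hb
    have h2 := h0 _ ((hmem _).1 hb) (pderiv_eqv_symm_C k b)
    have h3 : Polynomial.C b = 0 := by
      have := congrArg φ h2
      rwa [AlgEquiv.apply_symm_apply, map_zero] at this
    exact Polynomial.C_eq_zero.1 h3
  have h2 : J ≠ ⊥ := by
    obtain ⟨f, hf, hf0⟩ := Submodule.exists_mem_ne_zero_of_ne_bot hb
    intro hJb
    have h3 : φ f ∈ J := by
      rw [hmem, AlgEquiv.symm_apply_apply]
      exact hf
    rw [hJb, Ideal.mem_bot] at h3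
    exact hf0 ((map_eq_zero_iff φ φ.injective).1 h3)
  obtain ⟨p, hp, hpp, hdvd⟩ := princ J hJ h1 h2
  refine ⟨φ.symm p, (hmem p).1 hp, ?_, ?_⟩
  · exact (MulEquiv.prime_iff φ.symm.toMulEquiv).2 hpp
  · intro h hh
    have h3 := hdvd (φ h) (by rw [hmem, AlgEquiv.symm_apply_apply]; exact hh)
    have h4 := map_dvd φ.symm h3
    rwa [AlgEquiv.symm_apply_apply] at h4

variable {σ : Type}

theorem eq_C_of_pderiv [CharZero F] (P : MvPolynomial σ F) (h : ∀ i, pderiv i P = 0) :
    P = C (coeff 0 P) := by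
  classical
  ext m
  rw [coeff_C]
  split_ifs with hm
  · rw [← hm]
  · by_contra hne
    obtain ⟨i, hi⟩ : ∃ i, m i ≠ 0 := by
      by_contra hcon
      push Not at hcon
      exact hm (by ext i; simp [hcon i])
    have h1 : coeff (m - Finsupp.single i 1) (pderiv i P) = 0 := by rw [h i]; simp
    have h3 : m - (Finsupp.single i 1 : σ →₀ ℕ) + Finsupp.single i 1 = m :=
      tsub_add_cancel_of_le (by
        rw [Finsupp.single_le_iff]; omega)
    rw [coeff_pderiv, h3] at h1
    rcases mul_eq_zero.1 h1 with h4 | h4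
    · exact hne h4
    · have : ((m i : ℕ) : F) ≠ 0 := by exact_mod_cast hi
      apply this
      have h5 : (m - (Finsupp.single i 1 : σ →₀ ℕ)) i + 1 = m i := by
        simp; omega
      rw [← h5]; push_cast; exact h4

theorem totalDegree_pderiv_lt (P : MvPolynomial σ F) (i : σ) (h : pderiv i P ≠ 0) :
    (pderiv i P).totalDegree < P.totalDegree := by
  classical
  have key : ∀ m ∈ (pderiv i P).support, (m.sum fun _ e => e) + 1 ≤ P.totalDegree := by
    intro m hm
    rw [mem_support_iff, coeff_pderiv] at hm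
    have h1 : m + Finsupp.single i 1 ∈ P.support := by
      rw [mem_support_iff]
      intro h0
      rw [h0, zero_mul] at hm
      exact hm rfl
    have h2 := le_totalDegree h1
    rw [Finsupp.sum_add_index' (by simp) (by simp)] at h2
    simpa using h2
  obtain ⟨m, hm, hm2⟩ := (totalDegree_eq (pderiv i P)).symm ▸
    Finset.exists_mem_eq_sup (pderiv i P).support (by
      rwa [Finset.nonempty_iff_ne_empty, Ne, support_eq_empty]) (fun m => m.toMultiset.card)
  have := key m hm
  rw [hm2, Finsupp.card_toMultiset]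
  exact this

theorem pderiv_comm (i j : σ) (P : MvPolynomial σ F) :
    pderiv i (pderiv j P) = pderiv j (pderiv i P) := by
  classical
  have h : ⁅(pderiv i : Derivation F (MvPolynomial σ F) (MvPolynomial σ F)),
      (pderiv j : Derivation F (MvPolynomial σ F) (MvPolynomial σ F))⁆ = 0 := by
    apply MvPolynomial.derivation_ext
    intro l
    rw [Derivation.commutator_apply]
    simp [pderiv_X, Pi.single_apply]
    split_ifs <;> simp
  have h1 := congrArg (fun D => D P) h
  simp only [Derivation.commutator_apply, Derivation.coe_zero, Pi.zero_apply] at h1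
  exact sub_eq_zero.1 h1

end mvpoly



section places

variable {n : ℕ} {F : Type} [Field F] {K : Type} [Field K] [Algebra F K] (P : Place F K)

/-- the maximal ideal of the place -/
def Mx (f : K) : Prop := P.Reg f ∧ P.red f = 0

variable {P}

theorem Mx.add {f g : K} (hf : Mx P f) (hg : Mx P g) : Mx P (f + g) :=
  ⟨P.reg_add hf.1 hg.1, by rw [P.red_add hf.1 hg.1, hf.2, hg.2, add_zero]⟩

theorem Mx.mul {f g : K} (hf : Mx P f) (hg : P.Reg g) : Mx P (f * g) :=
  ⟨P.reg_mul hf.1 hg, by rw [P.red_mul hf.1 hg, hf.2, zero_mul]⟩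

theorem Mx.neg {f : K} (hf : Mx P f) : Mx P (-f) :=
  ⟨P.reg_neg hf.1, by rw [P.red_neg hf.1, hf.2, neg_zero]⟩

theorem mx_zero : Mx P 0 := ⟨P.reg_zero, P.red_zero⟩

theorem mx_iff {f : K} : Mx P f ↔ f = 0 ∨ 0 < P.ord f := by
  constructor
  · intro h
    exact (P.red_eq_zero_iff h.1).1 h.2
  · intro h
    have hr : P.Reg f := h.imp id le_of_lt
    exact ⟨hr, (P.red_eq_zero_iff hr).2 h⟩

theorem mx_of_mul {f g : K} (hf : P.Reg f) (hg : P.Reg g) (h : Mx P (f * g)) :
    Mx P f ∨ Mx P g := by
  have h1 := h.2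
  rw [P.red_mul hf hg] at h1
  rcases mul_eq_zero.1 h1 with h2 | h2
  · exact Or.inl ⟨hf, h2⟩
  · exact Or.inr ⟨hg, h2⟩

/-- elements of the maximal ideal are multiples of a uniformizer -/
theorem Mx.exists {f t : K} (hf : Mx P f) (ht0 : t ≠ 0) (ht : P.ord t = 1) :
    ∃ u, P.Reg u ∧ f = t * u := by
  refine ⟨f / t, ?_, by rw [mul_div_cancel₀ _ ht0]⟩
  by_cases h0 : f = 0
  · left
    rw [h0, zero_div]
  · right
    rw [P.ord_div h0 ht0, ht]
    have := (mx_iff.1 hf).resolve_left h0
    omega

theorem reg_aeval {y : Fin n → K} (hy : ∀ i, P.Reg (y i)) (a : MvPolynomial (Fin n) F) :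
    P.Reg (aeval y a) := by
  induction a using MvPolynomial.induction_on with
  | C c =>
    rw [aeval_C]
    exact P.reg_const c
  | add p q hp hq =>
    rw [map_add]
    exact P.reg_add hp hq
  | mul_X p i hp =>
    rw [map_mul, aeval_X]
    exact P.reg_mul hp (hy i)

/-- the centre of the place on the affine space -/
noncomputable def ctr (P : Place F K) {y : Fin n → K} (hy : ∀ i, P.Reg (y i)) :
    Ideal (MvPolynomial (Fin n) F) where
  carrier := {a | Mx P (aeval y a)}
  zero_mem' := by
    change Mx P (aeval y 0)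
    rw [map_zero]
    exact mx_zero
  add_mem' := by
    intro a b ha hb
    change Mx P (aeval y (a + b))
    rw [map_add]
    exact Mx.add ha hb
  smul_mem' := by
    intro c a ha
    change Mx P (aeval y (c * a))
    rw [map_mul, mul_comm]
    exact Mx.mul ha (reg_aeval hy c)

theorem mem_ctr {y : Fin n → K} (hy : ∀ i, P.Reg (y i)) (a : MvPolynomial (Fin n) F) :
    a ∈ ctr P hy ↔ Mx P (aeval y a) := Iff.rfl

theorem ctr_prime {y : Fin n → K} (hy : ∀ i, P.Reg (y i)) : (ctr P hy).IsPrime := by
  constructor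
  · rw [Ideal.ne_top_iff_one, mem_ctr, map_one]
    intro h
    have := h.2
    rw [P.red_one] at this
    exact one_ne_zero this
  · intro a b hab
    rw [mem_ctr, map_mul] at hab
    exact mx_of_mul (reg_aeval hy a) (reg_aeval hy b) hab

/-- the partial derivatives -/
theorem der_aeval {y : Fin n → K} {k : Fin n} (D : Derivation F K K)
    (hD : ∀ i, D (y i) = if i = k then 1 else 0) (a : MvPolynomial (Fin n) F) :
    D (aeval y a) = aeval y (pderiv k a) := by
  induction a using MvPolynomial.induction_on with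
  | C c =>
    rw [aeval_C, D.map_algebraMap, pderiv_C, map_zero]
  | add p q hp hq =>
    rw [map_add, map_add, map_add, map_add, hp, hq]
  | mul_X p i hp =>
    rw [map_mul, D.leibniz, hp, aeval_X, hD, (pderiv k).leibniz, map_add, pderiv_X]
    simp only [smul_eq_mul, map_mul, aeval_X]
    by_cases hik : i = k
    · subst hik
      simp
    · rw [if_neg hik, Pi.single_apply, if_neg hik]
      simp

/-- if all partial derivatives are regular, the centre is a hypersurface -/
theorem exists_index [CharZero F] {y : Fin n → K} (hy : ∀ i, P.Reg (y i)) (D : Fin n → Derivation F K K)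
    (hD : ∀ k i, D k (y i) = if i = k then 1 else 0) (hreg : ∀ k, DerReg P (D k))
    (hb : ctr P hy ≠ ⊥) :
    ∃ k, ∀ c ∈ ctr P hy, pderiv k c = 0 → c = 0 := by
  classical
  obtain ⟨t, ht0, ht⟩ := P.surj
  have hder : ∀ k a, D k (aeval y a) = aeval y (pderiv k a) := fun k a => der_aeval (D k) (hD k) a
  -- constants
  have hconst : ∀ c ∈ ctr P hy, (∀ i, pderiv i c = 0) → c = 0 := by
    intro c hc hc0
    rw [eq_C_of_pderiv c hc0] at hc ⊢
    by_contra hne
    have h1 : coeff 0 c ≠ 0 := fun h => hne (by rw [h, map_zero])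
    rw [mem_ctr, aeval_C, mx_iff] at hc
    rcases hc with h | h
    · exact h1 ((map_eq_zero _).1 h)
    · rw [P.ord_const h1] at h
      exact lt_irrefl _ h
  -- an element of minimal degree
  have hex : ∃ N, ∃ f ∈ ctr P hy, f ≠ 0 ∧ f.totalDegree = N := by
    obtain ⟨f, hf, hf0⟩ := Submodule.exists_mem_ne_zero_of_ne_bot hb
    exact ⟨_, f, hf, hf0, rfl⟩
  obtain ⟨f, hf, hf0, hfN⟩ := Nat.find_spec hex
  obtain ⟨k, hk⟩ : ∃ k, pderiv k f ∉ ctr P hy := by
    by_contra hcon
    push Not at hcon
    apply hf0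
    apply hconst f hf
    intro i
    by_contra hne
    have h1 := totalDegree_pderiv_lt f i hne
    have h2 := Nat.find_min' hex ⟨_, hcon i, hne, rfl⟩
    omega
  refine ⟨k, ?_⟩
  -- `f` is a uniformizer
  obtain ⟨u, hu, hfu⟩ := Mx.exists ((mem_ctr hy f).1 hf) ht0 ht
  have hfd : P.Reg (D k (aeval y f)) := by
    rw [hder]
    exact reg_aeval hy _
  have hunit : ¬ Mx P (D k (aeval y f)) := by
    rw [hder]
    exact hk
  have hmt : Mx P t := mx_iff.2 (Or.inr (by omega))
  have hord : aeval y f ≠ 0 ∧ P.ord (aeval y f) = 1 := by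
    have h1 : ¬ Mx P u := by
      intro h
      apply hunit
      rw [hfu, (D k).leibniz, smul_eq_mul, smul_eq_mul]
      exact Mx.add (Mx.mul hmt (hreg k u hu)) (Mx.mul h (hreg k t hmt.1))
    rw [mx_iff] at h1
    push Not at h1
    have h2 := (P.reg_iff h1.1).1 hu
    refine ⟨by rw [hfu]; exact mul_ne_zero ht0 h1.1, ?_⟩
    rw [hfu, P.ord_mul ht0 h1.1, ht]
    omega
  have hmf : Mx P (aeval y f) := hf
  -- descent
  intro c
  induction hn : c.totalDegree using Nat.strong_induction_on generalizing c with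
  | _ N ih =>
    intro hc hkc
    apply hconst c hc
    intro j
    by_contra hne
    have h1 := totalDegree_pderiv_lt c j hne
    apply hne
    refine ih _ (by omega) (pderiv j c) rfl ?_ ?_
    · obtain ⟨v, hv, hcv⟩ := Mx.exists ((mem_ctr hy c).1 hc) hord.1 hord.2
      have h2 : Mx P v := by
        have h3 : D k (aeval y c) = 0 := by rw [hder, hkc, map_zero]
        rw [hcv, (D k).leibniz, smul_eq_mul, smul_eq_mul] at h3
        have h4 : Mx P (v * D k (aeval y f)) := by
          have h5 : v * D k (aeval y f) = -(aeval y f * D k v) := by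
            linear_combination h3
          rw [h5]
          exact (Mx.mul hmf (hreg k v hv)).neg
        exact (mx_of_mul hv hfd h4).resolve_right hunit
      rw [mem_ctr, ← hder, hcv, (D j).leibniz, smul_eq_mul, smul_eq_mul]
      exact Mx.add (Mx.mul hmf (hreg j v hv)) (Mx.mul h2 (hreg j _ hmf.1))
    · rw [pderiv_comm, hkc, map_zero]

/-- the orders of the multiples of the generator -/
theorem ord_eq {y : Fin n → K} (hy : ∀ i, P.Reg (y i)) (hinj : AlgebraicIndependent F y)
    {p : MvPolynomial (Fin n) F} (hp : Prime p) (hdvd : ∀ h ∈ ctr P hy, p ∣ h)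
    (a : MvPolynomial (Fin n) F) (ha : a ≠ 0) :
    ∃ (m : ℕ) (b : MvPolynomial (Fin n) F), a = p ^ m * b ∧ ¬ p ∣ b ∧
      P.ord (aeval y a) = m * P.ord (aeval y p) := by
  obtain ⟨m, b, hb, hab⟩ := WfDvdMonoid.max_power_factor ha hp.irreducible
  refine ⟨m, b, hab, hb, ?_⟩
  have hne : ∀ c : MvPolynomial (Fin n) F, c ≠ 0 → aeval y c ≠ 0 := by
    intro c hc h
    exact hc (hinj (by rw [h, map_zero]))
  have hb0 : b ≠ 0 := by
    rintro rfl
    exact hb (dvd_zero p)
  rw [hab, map_mul, map_pow, P.ord_mul (pow_ne_zero _ (hne p hp.ne_zero)) (hne b hb0), P.ord_pow]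
  have h1 : ¬ Mx P (aeval y b) := fun h => hb (hdvd b h)
  rw [mx_iff] at h1
  push Not at h1
  have h2 := (P.reg_iff (hne b hb0)).1 (reg_aeval hy b)
  have h3 : P.ord (aeval y b) = 0 := le_antisymm h1.2 h2
  rw [h3, add_zero]

/-- the generator is a uniformizer -/
theorem ord_gen {y : Fin n → K} (hy : ∀ i, P.Reg (y i)) (hinj : AlgebraicIndependent F y)
    (htop : IntermediateField.adjoin F (Set.range y) = ⊤)
    {p : MvPolynomial (Fin n) F} (hp : Prime p) (hpm : p ∈ ctr P hy)
    (hdvd : ∀ h ∈ ctr P hy, p ∣ h) : P.ord (aeval y p) = 1 := by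
  have hne : ∀ c : MvPolynomial (Fin n) F, c ≠ 0 → aeval y c ≠ 0 := by
    intro c hc h
    exact hc (hinj (by rw [h, map_zero]))
  have hpos : 0 < P.ord (aeval y p) :=
    (mx_iff.1 ((mem_ctr hy p).1 hpm)).resolve_left (hne p hp.ne_zero)
  obtain ⟨t, ht0, ht⟩ := P.surj
  obtain ⟨a, b, hab⟩ : ∃ a b : MvPolynomial (Fin n) F, t = aeval y a / aeval y b := by
    have h1 : t ∈ IntermediateField.adjoin F (Set.range y) := by rw [htop]; trivial
    rw [IntermediateField.mem_adjoin_range_iff] at h1
    obtain ⟨a, b, h⟩ := h1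
    exact ⟨a, b, h⟩
  have ha : a ≠ 0 := by
    rintro rfl
    rw [map_zero, zero_div] at hab
    exact ht0 hab
  have hb : b ≠ 0 := by
    rintro rfl
    rw [map_zero, div_zero] at hab
    exact ht0 hab
  obtain ⟨m, -, -, -, hm⟩ := ord_eq hy hinj hp hdvd a ha
  obtain ⟨m', -, -, -, hm'⟩ := ord_eq hy hinj hp hdvd b hb
  have h2 : (1 : ℤ) = (m - m') * P.ord (aeval y p) := by
    rw [← ht, hab, P.ord_div (hne a ha) (hne b hb), hm, hm']
    ring
  have h3 : P.ord (aeval y p) ∣ 1 := Dvd.intro_left _ h2.symm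
  exact Int.eq_one_of_dvd_one hpos.le h3

end places

end Pool.Agent.Y179.KZ
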