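import Pool.Agent.Y179.KZ.AlgK
import Pool.Agent.W602.GT.Der

/-!
# KZ8: places with centre on the torus over a field `k`: the core
-/

set_option autoImplicit false

namespace Pool.Agent.Y179.KZ

open FF MvPolynomial Pool.Agent.W602.GT

section basis

variable {F K : Type} [Field F] [CharZero F] [Field K] [Algebra F K]

/-- elements with partial derivatives are algebraically independent -/
theorem indep_of_der {n : ℕ} (z : Fin n → K) (E : Fin n → Derivation F K K)
    (hE : ∀ k i, E k (z i) = if i = k then 1 else 0) : AlgebraicIndependent F z := by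
  classical
  rw [algebraicIndependent_iff]
  intro f
  induction hn : f.totalDegree using Nat.strong_induction_on generalizing f with
  | _ N ih =>
    intro hf
    have h1 : ∀ k, pderiv k f = 0 := by
      intro k
      by_contra hne
      refine hne (ih _ (hn ▸ totalDegree_pderiv_lt f k hne) (pderiv k f) rfl ?_)
      rw [← der_aeval (E k) (hE k), hf, map_zero]
    have h2 := eq_C_of_pderiv f h1
    rw [h2, aeval_C] at hf
    rw [h2, (map_eq_zero _).1 hf, map_zero]

/-- the transcendence basis of a field which is generated by independent elements -/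
theorem basis_of_top {b : ℕ} (X : Fin b → K) (hX : AlgebraicIndependent F X)
    (htop : IntermediateField.adjoin F (Set.range X) = ⊤) : IsTranscendenceBasis F X := by
  rw [hX.isTranscendenceBasis_iff_isAlgebraic, ← IntermediateField.isAlgebraic_adjoin_iff_top,
    htop]
  refine ⟨fun x => ?_⟩
  exact isAlgebraic_algebraMap (⟨x, IntermediateField.mem_top⟩ : (⊤ : IntermediateField F K))

end basis

section core

variable {k K : Type} [Field k] [Field K] [Algebra ℂ k] [Algebra ℂ K] [Algebra k K]
  [IsScalarTower ℂ k K]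

/-- the partial derivatives over `k` are regular -/
theorem exists_theta {a b : ℕ} {X : Fin b → K}
    (htr : Algebra.trdeg ℂ k = a) (hX : AlgebraicIndependent k X)
    (htop : IntermediateField.adjoin k (Set.range X) = ⊤)
    (P : Place ℂ K) (z : Fin (a + b) → K)
    (hzk : ∀ i, (∃ c : k, z i = algebraMap k K c) ∨ ∃ j, z i = X j)
    (E : Fin (a + b) → Derivation ℂ K K) (hE : ∀ k i, E k (z i) = if i = k then 1 else 0)
    (hEr : ∀ k, DerReg P (E k)) :
    ∃ θ : Fin b → Derivation k K K, (∀ k i, θ k (X i) = if i = k then 1 else 0) ∧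
      ∀ k f, P.Reg f → P.Reg (θ k f) := by
  classical
  have hchar : CharZero k := charZero_of_injective_algebraMap (algebraMap ℂ k).injective
  have hXb := basis_of_top X hX htop
  have hz : AlgebraicIndependent ℂ z := indep_of_der z E hE
  have htrK : Algebra.trdeg ℂ K = (a + b : ℕ) := by
    rw [← trdeg_add_eq ℂ k (A := K), htr, ← hXb.cardinalMk_eq_trdeg, Cardinal.mk_fin]
    push_cast
    rfl
  have hzb : IsTranscendenceBasis ℂ z := by
    apply hz.isTranscendenceBasis_of_trdeg_le_of_finite
    rw [htrK, Cardinal.mk_fin]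
  have hex : ∀ j : Fin b, ∃ D : Derivation k K K, ∀ i, D (X i) = if i = j then 1 else 0 :=
    fun j => exists_der X hXb _
  choose θ hθ using hex
  refine ⟨θ, hθ, ?_⟩
  intro j
  -- `X j` occurs
  obtain ⟨i, hi⟩ : ∃ i, z i = X j := by
    by_contra hcon
    push Not at hcon
    have h1 : (θ j).restrictScalars ℂ = 0 := by
      apply der_ext z hzb
      intro i
      rw [Derivation.restrictScalars_apply, Derivation.coe_zero, Pi.zero_apply]
      rcases hzk i with ⟨c, hc⟩ | ⟨j', hj'⟩
      · rw [hc, Derivation.map_algebraMap]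
      · rw [hj', hθ, if_neg]
        rintro rfl
        exact hcon i hj'
    have h2 := congrArg (fun D => D (X j)) h1
    simp only [Derivation.restrictScalars_apply, Derivation.coe_zero, Pi.zero_apply] at h2
    rw [hθ, if_pos rfl] at h2
    exact one_ne_zero h2
  have h1 : (θ j).restrictScalars ℂ = E i := by
    apply der_ext z hzb
    intro i'
    rw [Derivation.restrictScalars_apply, hE]
    by_cases hii : i' = i
    · rw [if_pos hii, hii, hi, hθ, if_pos rfl]
    · rw [if_neg hii]
      rcases hzk i' with ⟨c, hc⟩ | ⟨j', hj'⟩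
      · rw [hc, Derivation.map_algebraMap]
      · rw [hj', hθ, if_neg]
        rintro rfl
        exact hii (hz.injective (hj'.trans hi.symm))
  intro f hf
  have h2 : θ j f = E i f := by
    rw [← h1, Derivation.restrictScalars_apply]
  rw [h2]
  exact hEr i f hf

/-- a place which is trivial on `k` -/
def plK (P : Place ℂ K) (h : ∀ c : k, c ≠ 0 → P.ord (algebraMap k K c) = 0) : Place k K where
  ord := P.ord
  ord_zero := P.ord_zero
  ord_mul := P.ord_mul
  ord_add := P.ord_add
  ord_const := fun {c} hc => h c hc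
  surj := P.surj

/-- places which are trivial on `k` -/
theorem caseA {b : ℕ} {X : Fin b → K} {g : MvPolynomial (Fin b) k}
    (hX : AlgebraicIndependent k X) (htop : IntermediateField.adjoin k (Set.range X) = ⊤)
    (P : Place ℂ K) (hXP : ∀ i, P.Reg (X i)) (θ : Fin b → Derivation k K K)
    (hθ : ∀ k i, θ k (X i) = if i = k then 1 else 0) (hr : ∀ k f, P.Reg f → P.Reg (θ k f))
    (h : ∀ c : k, c ≠ 0 → P.ord (algebraMap k K c) = 0) :
    (∀ i, P.Reg (aeval X (MvPolynomial.X i * pderiv i g) / aeval X g)) ∨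
    ∃ p : MvPolynomial (Fin b) k, Irreducible p ∧ p ∣ g ∧
      (∀ c : k, c ≠ 0 → P.ord (algebraMap k K c) = 0) ∧
      ∀ (A : MvPolynomial (Fin b) k) (s : ℕ), ¬ p ∣ A → P.ord (aeval X (p ^ s * A)) = s := by
  have hchar : CharZero k := charZero_of_injective_algebraMap (algebraMap ℂ k).injective
  have hXQ : ∀ i, (plK P h).Reg (X i) := hXP
  have hne : ∀ c : MvPolynomial (Fin b) k, c ≠ 0 → aeval X c ≠ 0 := by
    intro c hc h
    exact hc (hX (by rw [h, map_zero]))
  by_cases hg0 : g = 0
  · left
    intro i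
    rw [hg0, map_zero (aeval X), div_zero]
    exact P.reg_zero
  by_cases hg : g ∈ ctr (plK P h) hXQ
  · right
    have hb : ctr (plK P h) hXQ ≠ ⊥ := fun hb => hg0 (by rwa [hb, Ideal.mem_bot] at hg)
    obtain ⟨k', hk'⟩ := exists_index hXQ θ hθ hr hb
    obtain ⟨p, hp, hpp, hdvd⟩ := princ_mv k' _ (ctr_prime hXQ) hk' hb
    have hgen := ord_gen hXQ hX htop hpp hp hdvd
    refine ⟨p, hpp.irreducible, hdvd g hg, h, ?_⟩
    intro A s hA
    have hA0 : A ≠ 0 := by
      rintro rfl
      exact hA (dvd_zero p)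
    have h1 : ¬ Mx (plK P h) (aeval X A) := fun hm => hA (hdvd A hm)
    rw [mx_iff] at h1
    push Not at h1
    have h2 := ((plK P h).reg_iff (hne A hA0)).1 (reg_aeval hXQ A)
    have h3 : (plK P h).ord (aeval X A) = 0 := le_antisymm h1.2 h2
    change (plK P h).ord (aeval X (p ^ s * A)) = s
    rw [map_mul, map_pow, (plK P h).ord_mul (pow_ne_zero _ (hne p hpp.ne_zero)) (hne A hA0),
      (plK P h).ord_pow, hgen, h3]
    simp
  · left
    intro i
    have h1 : ¬ Mx (plK P h) (aeval X g) := hg
    rw [mx_iff] at h1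
    push Not at h1
    have h2 := ((plK P h).reg_iff (hne g hg0)).1 (reg_aeval hXQ g)
    have h3 : (plK P h).ord (aeval X g) = 0 := le_antisymm h1.2 h2
    rw [div_eq_mul_inv]
    refine (plK P h).reg_mul (reg_aeval hXQ _) (Or.inr ?_)
    rw [(plK P h).ord_inv, h3, neg_zero]

theorem aeval_sum' {b : ℕ} (X : Fin b → K) (f : MvPolynomial (Fin b) k) :
    aeval X f = ∑ d ∈ f.support, algebraMap k K (coeff d f) * ∏ i, X i ^ d i := by
  rw [aeval_def, eval₂_eq']

omit [Algebra ℂ k] [IsScalarTower ℂ k K] in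
theorem reg_mono {b : ℕ} {X : Fin b → K} {P : Place ℂ K} (hXP : ∀ i, P.Reg (X i))
    (d : Fin b →₀ ℕ) : P.Reg (∏ i, X i ^ d i) := by
  refine Finset.prod_induction _ (fun f => P.Reg f) (fun _ _ => P.reg_mul) P.reg_one ?_
  intro i _
  exact P.mem_O.1 (pow_mem (show X i ∈ P.O from hXP i) _)

theorem mx_of_coeffs {b : ℕ} {X : Fin b → K} {P : Place ℂ K} (hXP : ∀ i, P.Reg (X i))
    (f : MvPolynomial (Fin b) k) (h : ∀ m, Mx P (algebraMap k K (coeff m f))) :
    Mx P (aeval X f) := by
  rw [aeval_sum']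
  refine Finset.sum_induction _ (fun f => Mx P f) (fun _ _ => Mx.add) mx_zero ?_
  intro d _
  exact (h d).mul (reg_mono hXP d)

theorem reg_of_coeffs {b : ℕ} {X : Fin b → K} {P : Place ℂ K} (hXP : ∀ i, P.Reg (X i))
    (f : MvPolynomial (Fin b) k) (h : ∀ m, P.Reg (algebraMap k K (coeff m f))) :
    P.Reg (aeval X f) := by
  rw [aeval_sum']
  refine Finset.sum_induction _ (fun f => P.Reg f) (fun _ _ => P.reg_add) P.reg_zero ?_
  intro d _
  exact P.reg_mul (h d) (reg_mono hXP d)

theorem ord_nat (P : Place ℂ K) {e : ℕ} (he : e ≠ 0) : P.ord (e : K) = 0 := by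
  have h1 : (e : K) = algebraMap ℂ K (e : ℂ) := by rw [map_natCast]
  rw [h1]
  exact P.ord_const (by exact_mod_cast he)

theorem natCast_ne {e : ℕ} (he : e ≠ 0) : (e : K) ≠ 0 := by
  have : CharZero K := charZero_of_injective_algebraMap (algebraMap ℂ K).injective
  exact_mod_cast he

/-- polynomials with unit coefficients do not vanish at the centre of a place which is not trivial
on `k` -/
theorem unit_coeffs {b : ℕ} {X : Fin b → K} (hX : AlgebraicIndependent k X)
    (P : Place ℂ K) (hXP : ∀ i, P.Reg (X i)) (θ : Fin b → Derivation k K K)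
    (hθ : ∀ k i, θ k (X i) = if i = k then 1 else 0) (hr : ∀ k f, P.Reg f → P.Reg (θ k f))
    {ϖ : k} (hϖ0 : ϖ ≠ 0) (hϖ : 0 < P.ord (algebraMap k K ϖ)) (h : MvPolynomial (Fin b) k)
    (h0 : h ≠ 0) (hc : ∀ m, coeff m h ≠ 0 → P.ord (algebraMap k K (coeff m h)) = 0) :
    ¬ Mx P (aeval X h) := by
  classical
  have hchar : CharZero k := charZero_of_injective_algebraMap (algebraMap ℂ k).injective
  induction hn : h.totalDegree using Nat.strong_induction_on generalizing h with
  | _ N ih =>
    intro hm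
    obtain ⟨j, hj⟩ : ∃ j, pderiv j h ≠ 0 := by
      by_contra hcon
      push Not at hcon
      have h1 := eq_C_of_pderiv h hcon
      have h2 : coeff 0 h ≠ 0 := by
        intro h3
        rw [h3, map_zero] at h1
        exact h0 h1
      rw [h1, aeval_C, mx_iff] at hm
      rcases hm with h3 | h3
      · exact h2 ((map_eq_zero _).1 h3)
      · rw [hc 0 h2] at h3
        exact lt_irrefl _ h3
    have h1 := ih _ (hn ▸ totalDegree_pderiv_lt h j hj) (pderiv j h) hj (by
      intro m hm0
      rw [coeff_pderiv] at hm0 ⊢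
      have h2 : coeff (m + Finsupp.single j 1) h ≠ 0 := left_ne_zero_of_mul hm0
      have h3 : ((m j : k) + 1) = ((m j + 1 : ℕ) : k) := by push_cast; rfl
      rw [h3, map_mul, map_natCast, P.ord_mul ((map_ne_zero _).2 h2) (natCast_ne (by omega)),
        hc _ h2, ord_nat P (by omega), add_zero]) rfl
    rw [← der_aeval (θ j) (hθ j)] at h1
    set f := aeval X h with hf
    have hf0 : f ≠ 0 := by
      intro h2
      exact h0 (hX (by rw [map_zero]; exact h2))
    obtain ⟨t, ht0, ht⟩ := P.surj
    obtain ⟨u, hu, hfu⟩ := hm.exists ht0 ht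
    have hmt : Mx P t := mx_iff.2 (Or.inr (by omega))
    have hfr : P.Reg f := hm.1
    have hord : P.ord f = 1 := by
      have h2 : ¬ Mx P u := by
        intro h3
        apply h1
        rw [hfu, (θ j).leibniz, smul_eq_mul, smul_eq_mul]
        exact Mx.add (Mx.mul hmt (hr j u hu)) (Mx.mul h3 (hr j t hmt.1))
      rw [mx_iff] at h2
      push Not at h2
      have h3 := (P.reg_iff h2.1).1 hu
      rw [hfu, P.ord_mul ht0 h2.1, ht]
      omega
    obtain ⟨e, he⟩ : ∃ e : ℕ, P.ord (algebraMap k K ϖ) = (e + 1 : ℕ) :=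
      ⟨(P.ord (algebraMap k K ϖ)).toNat - 1, by omega⟩
    have hϖK : algebraMap k K ϖ ≠ 0 := (map_ne_zero _).2 hϖ0
    set w := algebraMap k K ϖ / f ^ (e + 1) with hw
    have hw0 : w ≠ 0 := div_ne_zero hϖK (pow_ne_zero _ hf0)
    have hwo : P.ord w = 0 := by
      rw [hw, P.ord_div hϖK (pow_ne_zero _ hf0), P.ord_pow, hord, he]
      push_cast
      ring
    have hwr : P.Reg w := Or.inr hwo.ge
    have h2 : algebraMap k K ϖ = f ^ (e + 1) * w := by
      rw [hw, mul_div_cancel₀ _ (pow_ne_zero _ hf0)]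
    have h3 : θ j (f ^ (e + 1) * w) = 0 := by rw [← h2, Derivation.map_algebraMap]
    rw [(θ j).leibniz, (θ j).leibniz_pow] at h3
    simp only [smul_eq_mul, nsmul_eq_mul, Nat.add_sub_cancel] at h3
    have h4 : f ^ e * (((e + 1 : ℕ) : K) * w * θ j f + f * θ j w) = 0 := by
      rw [← h3]
      ring
    have h5 : ((e + 1 : ℕ) : K) * w * θ j f = -(f * θ j w) := by
      have h6 := (mul_eq_zero.1 h4).resolve_left (pow_ne_zero _ hf0)
      linear_combination h6
    have h6 : Mx P (((e + 1 : ℕ) : K) * w * θ j f) := by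
      rw [h5]
      exact (Mx.mul hm (hr j w hwr)).neg
    have h7 : P.ord (((e + 1 : ℕ) : K) * w) = 0 := by
      rw [P.ord_mul (natCast_ne (by omega)) hw0, ord_nat P (by omega), hwo, add_zero]
    rcases mx_of_mul (Or.inr h7.ge) (hr j f hfr) h6 with h8 | h8
    · rw [mx_iff] at h8
      rcases h8 with h8 | h8
      · exact mul_ne_zero (natCast_ne (by omega)) hw0 h8
      · rw [h7] at h8
        exact lt_irrefl _ h8
    · exact h1 h8

/-- places which are not trivial on `k` -/
theorem caseB {b : ℕ} {X : Fin b → K} {g : MvPolynomial (Fin b) k}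
    (hX : AlgebraicIndependent k X)
    (P : Place ℂ K) (hXP : ∀ i, P.Reg (X i)) (θ : Fin b → Derivation k K K)
    (hθ : ∀ k i, θ k (X i) = if i = k then 1 else 0) (hr : ∀ k f, P.Reg f → P.Reg (θ k f))
    {ϖ : k} (hϖ0 : ϖ ≠ 0) (hϖ : 0 < P.ord (algebraMap k K ϖ)) (i : Fin b) :
    P.Reg (aeval X (MvPolynomial.X i * pderiv i g) / aeval X g) := by
  classical
  by_cases hg0 : g = 0
  · rw [hg0, map_zero (aeval X), div_zero]
    exact P.reg_zero
  have hchar : CharZero k := charZero_of_injective_algebraMap (algebraMap ℂ k).injective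
  obtain ⟨m0, hm0, hmin⟩ := Finset.exists_min_image g.support
    (fun m => P.ord (algebraMap k K (coeff m g))) (by
      rwa [Finset.nonempty_iff_ne_empty, Ne, support_eq_empty])
  rw [mem_support_iff] at hm0
  set c0 := coeff m0 g with hc0
  have hc0K : algebraMap k K c0 ≠ 0 := (map_ne_zero _).2 hm0
  set g' := C c0⁻¹ * g with hg'
  have hgg : g = C c0 * g' := by
    rw [hg', ← mul_assoc, ← C_mul, mul_inv_cancel₀ hm0, C_1, one_mul]
  have hco : ∀ m, coeff m g' = c0⁻¹ * coeff m g := fun m => coeff_C_mul _ _ _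
  have hord : ∀ m, coeff m g ≠ 0 → P.ord (algebraMap k K (coeff m g')) =
      P.ord (algebraMap k K (coeff m g)) - P.ord (algebraMap k K c0) := by
    intro m hm
    rw [hco, map_mul, P.ord_mul (by rw [map_inv₀]; exact inv_ne_zero hc0K) ((map_ne_zero _).2 hm),
      map_inv₀, P.ord_inv]
    ring
  have hreg : ∀ m, P.Reg (algebraMap k K (coeff m g')) := by
    intro m
    by_cases hm : coeff m g = 0
    · rw [hco, hm, mul_zero, map_zero]
      exact P.reg_zero
    · right
      rw [hord m hm]
      have := hmin m (mem_support_iff.2 hm)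
      omega
  -- the part with unit coefficients
  set S := g'.support.filter fun m => P.ord (algebraMap k K (coeff m g')) = 0 with hS
  set h : MvPolynomial (Fin b) k := ∑ m ∈ S, monomial m (coeff m g') with hh
  have hcoh : ∀ m, coeff m h = if m ∈ S then coeff m g' else 0 := by
    intro m
    rw [hh, coeff_sum]
    simp only [coeff_monomial]
    rw [Finset.sum_ite_eq' S m]
  have hm0S : m0 ∈ S := by
    rw [hS, Finset.mem_filter, mem_support_iff]
    constructor
    · rw [hco]
      exact mul_ne_zero (inv_ne_zero hm0) hm0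
    · rw [hord m0 hm0, sub_self]
  have hh0 : h ≠ 0 := by
    intro h1
    have h2 := hcoh m0
    rw [h1, if_pos hm0S, coeff_zero] at h2
    exact (mem_support_iff.1 (Finset.mem_filter.1 hm0S).1) h2.symm
  have hu := unit_coeffs hX P hXP θ hθ hr hϖ0 hϖ h hh0 (by
    intro m hm
    rw [hcoh] at hm ⊢
    split_ifs at hm ⊢ with h1
    · exact (Finset.mem_filter.1 h1).2
    · exact absurd rfl hm)
  have hd : Mx P (aeval X (g' - h)) := by
    apply mx_of_coeffs hXP
    intro m
    rw [coeff_sub, hcoh]
    split_ifs with h1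
    · rw [sub_self, map_zero]
      exact mx_zero
    · rw [sub_zero, mx_iff]
      by_cases h2 : coeff m g' = 0
      · left
        rw [h2, map_zero]
      · right
        have h3 := (P.reg_iff ((map_ne_zero _).2 h2)).1 (hreg m)
        have h4 : P.ord (algebraMap k K (coeff m g')) ≠ 0 := by
          intro h5
          exact h1 (Finset.mem_filter.2 ⟨mem_support_iff.2 h2, h5⟩)
        omega
  have hgu : ¬ Mx P (aeval X g') := by
    intro h1
    apply hu
    have h2 : aeval X h = aeval X g' + -(aeval X (g' - h)) := by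
      rw [map_sub]
      ring
    rw [h2]
    exact h1.add hd.neg
  rw [mx_iff] at hgu
  push Not at hgu
  have h2 := (P.reg_iff hgu.1).1 (reg_of_coeffs hXP g' hreg)
  have h3 : P.ord (aeval X g') = 0 := le_antisymm hgu.2 h2
  have h4 : aeval X (MvPolynomial.X i * pderiv i g) / aeval X g =
      aeval X (MvPolynomial.X i * pderiv i g') / aeval X g' := by
    have h5 : pderiv i g = C c0 * pderiv i g' := by
      rw [hgg, (pderiv i).leibniz, pderiv_C, smul_zero, add_zero, smul_eq_mul]
    rw [h5, show MvPolynomial.X i * (C c0 * pderiv i g') = C c0 * (MvPolynomial.X i * pderiv i g')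
      by ring]
    conv_lhs => rw [hgg]
    rw [map_mul (aeval X) (C c0) g', map_mul (aeval X) (C c0), aeval_C,
      mul_div_mul_left _ _ hc0K]
  rw [h4, div_eq_mul_inv]
  refine P.reg_mul ?_ (Or.inr ?_)
  · rw [map_mul, aeval_X]
    refine P.reg_mul (hXP i) (reg_of_coeffs hXP _ ?_)
    intro m
    rw [coeff_pderiv]
    have h6 : ((m i : k) + 1) = ((m i + 1 : ℕ) : k) := by push_cast; rfl
    rw [h6, map_mul, map_natCast]
    exact P.reg_mul (hreg _) (Or.inr (by rw [ord_nat P (by omega)]))
  · rw [P.ord_inv, h3, neg_zero]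

/-- the core -/
theorem core {a b : ℕ} {X : Fin b → K} {g : MvPolynomial (Fin b) k}
    (htr : Algebra.trdeg ℂ k = a) (hX : AlgebraicIndependent k X)
    (htop : IntermediateField.adjoin k (Set.range X) = ⊤)
    (P : Place ℂ K) (hXP : ∀ i, P.Reg (X i)) (z : Fin (a + b) → K)
    (hzk : ∀ i, (∃ c : k, z i = algebraMap k K c) ∨ ∃ j, z i = X j)
    (E : Fin (a + b) → Derivation ℂ K K) (hE : ∀ k i, E k (z i) = if i = k then 1 else 0)
    (hEr : ∀ k, DerReg P (E k)) :
    (∀ i, P.Reg (aeval X (MvPolynomial.X i * pderiv i g) / aeval X g)) ∨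
    ∃ p : MvPolynomial (Fin b) k, Irreducible p ∧ p ∣ g ∧
      (∀ c : k, c ≠ 0 → P.ord (algebraMap k K c) = 0) ∧
      ∀ (A : MvPolynomial (Fin b) k) (s : ℕ), ¬ p ∣ A → P.ord (aeval X (p ^ s * A)) = s := by
  obtain ⟨θ, hθ, hr⟩ := exists_theta htr hX htop P z hzk E hE hEr
  by_cases h : ∀ c : k, c ≠ 0 → P.ord (algebraMap k K c) = 0
  · exact caseA hX htop P hXP θ hθ hr h
  · left
    push Not at h
    obtain ⟨c, hc0, hc⟩ := h
    rcases lt_or_gt_of_ne hc with h1 | h1
    · exact fun i => caseB hX P hXP θ hθ hr (inv_ne_zero hc0) (by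
        rw [map_inv₀, P.ord_inv]; omega) i
    · exact fun i => caseB hX P hXP θ hθ hr hc0 h1 i

end core

end Pool.Agent.Y179.KZ
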