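import Pool.Agent.Y192.KC.ZDefs
import Pool.Agent.Y179.KZ.Core

/-!
# KZ8: `St_deepZ`
-/

set_option autoImplicit false

namespace Pool.Agent.Y179.KZ

open FF MvPolynomial Pool.Agent.W602.GT Pool.Agent.Y192.OG

theorem t_deepZ : Pool.Agent.Y192.KC.St_deepZ := by
  intro k K _ _ _ _ _ _ N a b y X g _ htr hX htop _ _ P hy hXo
  have hXP : ∀ i, P.Reg (X i : K) := fun i => Or.inr (hXo i).ge
  have hyz : ∀ m : Fin N → ℤ, P.ord (algebraMap k K (xm y m : kˣ)) = 0 := by
    intro m
    have h1 : ∀ u v : kˣ, P.ord (algebraMap k K u) = 0 → P.ord (algebraMap k K v) = 0 →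
        P.ord (algebraMap k K ((u * v : kˣ) : k)) = 0 := by
      intro u v hu hv
      rw [Units.val_mul, map_mul, P.ord_mul ((map_ne_zero _).2 u.ne_zero)
        ((map_ne_zero _).2 v.ne_zero), hu, hv, add_zero]
    unfold xm
    refine Finset.prod_induction _ (fun u : kˣ => P.ord (algebraMap k K u) = 0) h1 ?_ ?_
    · rw [Units.val_one, map_one, P.ord_one]
    · intro i _
      rw [Units.val_zpow_eq_zpow_val, map_zpow₀, P.ord_zpow, hy i, mul_zero]
  by_cases h2 : ∀ (z : Fin (a + b) → K), (∀ i, (∃ m : Fin N → ℤ, z i = algebraMap k K (xm y m : kˣ)) ∨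
        ∃ j, z i = X j) →
      ∀ D : Fin (a + b) → Derivation ℂ K K, (∀ i, DerReg P (D i)) →
      (Matrix.of fun i j => D i (z j)).det = 0 ∨ 1 ≤ P.ord (Matrix.of fun i j => D i (z j)).det
  · exact Or.inr (Or.inl h2)
  · push Not at h2
    obtain ⟨z, hz, D, hD, h0, h1⟩ := h2
    have hzr : ∀ i, P.Reg (z i) := by
      intro i
      rcases hz i with ⟨m, hm⟩ | ⟨j, hj⟩
      · rw [hm]
        exact Or.inr (hyz m).ge
      · rw [hj]
        exact hXP j
    obtain ⟨E, hE, hEr⟩ := Pool.Agent.Y686.KC.exists_pd hzr D hD h0 (by omega)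
    have hzk : ∀ i, (∃ c : k, z i = algebraMap k K c) ∨ ∃ j, z i = X j := by
      intro i
      rcases hz i with ⟨m, hm⟩ | h
      · exact Or.inl ⟨_, hm⟩
      · exact Or.inr h
    rcases core (g := g) htr hX htop P hXP z hzk E hE hEr with h | h
    · exact Or.inl h
    · exact Or.inr (Or.inr h)

end Pool.Agent.Y179.KZ
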